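import Mathlib
import Pool.Agent.Work.MP_b2be16_co.Perms

set_option autoImplicit false

namespace Pool.Agent.Results.MP_b2be16_co.WilfEquivalence45123

open Pool.Agent.Work.Wilf

/-- The permutation `π` of `{0,…,n-1}` contains the pattern whose one-line word is `σ`: there are
positions `f 0 < f 1 < … < f (k-1)` whose entries `π (f 0), …, π (f (k-1))` are in the same
relative order as `σ 0, …, σ (k-1)`. -/
def Contains {k n : ℕ} (σ : Fin k → ℕ) (π : Equiv.Perm (Fin n)) : Prop :=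
  ∃ f : Fin k → Fin n, StrictMono f ∧ ∀ a b, σ a < σ b ↔ π (f a) < π (f b)

/-- number of permutations of `{0,…,n-1}` avoiding both patterns `σ` and `τ` -/
noncomputable def N (n : ℕ) {k : ℕ} (σ τ : Fin k → ℕ) : ℕ :=
  Nat.card {π : Equiv.Perm (Fin n) // ¬ Contains σ π ∧ ¬ Contains τ π}

/-! ### symmetries -/

lemma contains_inv {k n : ℕ} {σ σ' : Fin k → ℕ} (e : Equiv.Perm (Fin k))
    (h1 : ∀ a b, σ (e a) < σ (e b) ↔ a < b) (h2 : ∀ a b, σ' a < σ' b ↔ e a < e b)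
    (π : Equiv.Perm (Fin n)) (h : Contains σ π) : Contains σ' π⁻¹ := by
  obtain ⟨f, hf, hc⟩ := h
  refine ⟨fun a => π (f (e a)), ?_, ?_⟩
  · intro a b hab
    exact (hc _ _).mp ((h1 a b).mpr hab)
  · intro a b
    have h3 : ∀ x, π⁻¹ (π x) = x := fun x => π.symm_apply_apply x
    show σ' a < σ' b ↔ π⁻¹ (π (f (e a))) < π⁻¹ (π (f (e b)))
    rw [h3, h3, hf.lt_iff_lt, h2]

lemma contains_rev {k n : ℕ} {σ σ' : Fin k → ℕ} (h1 : ∀ a, σ' a = σ (Fin.rev a))
    (π : Equiv.Perm (Fin n)) (h : Contains σ π) : Contains σ' (Fin.revPerm.trans π) := by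
  obtain ⟨f, hf, hc⟩ := h
  refine ⟨fun a => Fin.rev (f (Fin.rev a)), ?_, ?_⟩
  · intro a b hab
    exact Fin.rev_lt_rev.mpr (hf (Fin.rev_lt_rev.mpr hab))
  · intro a b
    show σ' a < σ' b ↔ π (Fin.rev (Fin.rev (f (Fin.rev a)))) < π (Fin.rev (Fin.rev (f (Fin.rev b))))
    rw [Fin.rev_rev, Fin.rev_rev, h1, h1]
    exact hc _ _

lemma contains_comp {k n : ℕ} {σ σ' : Fin k → ℕ} (h1 : ∀ a b, σ' a < σ' b ↔ σ b < σ a)
    (π : Equiv.Perm (Fin n)) (h : Contains σ π) : Contains σ' (π.trans Fin.revPerm) := by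
  obtain ⟨f, hf, hc⟩ := h
  refine ⟨f, hf, ?_⟩
  intro a b
  show σ' a < σ' b ↔ Fin.rev (π (f a)) < Fin.rev (π (f b))
  rw [Fin.rev_lt_rev, h1]
  exact hc _ _

lemma N_inv {k : ℕ} (n : ℕ) {σ τ σ' τ' : Fin k → ℕ} (e e' : Equiv.Perm (Fin k))
    (h1 : ∀ a b, σ (e a) < σ (e b) ↔ a < b) (h2 : ∀ a b, σ' a < σ' b ↔ e a < e b)
    (h3 : ∀ a b, τ (e' a) < τ (e' b) ↔ a < b) (h4 : ∀ a b, τ' a < τ' b ↔ e' a < e' b)
    (g1 : ∀ a b, σ' (e.symm a) < σ' (e.symm b) ↔ a < b)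
    (g2 : ∀ a b, σ a < σ b ↔ e.symm a < e.symm b)
    (g3 : ∀ a b, τ' (e'.symm a) < τ' (e'.symm b) ↔ a < b)
    (g4 : ∀ a b, τ a < τ b ↔ e'.symm a < e'.symm b) :
    N n σ τ = N n σ' τ' := by
  unfold N
  apply Nat.card_congr
  refine Equiv.subtypeEquiv (Equiv.inv _) ?_
  intro π
  show _ ↔ ¬ Contains σ' π⁻¹ ∧ ¬ Contains τ' π⁻¹
  apply and_congr
  · apply not_congr
    constructor
    · exact contains_inv e h1 h2 π
    · intro h
      have := contains_inv e.symm g1 g2 π⁻¹ h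
      rwa [inv_inv] at this
  · apply not_congr
    constructor
    · exact contains_inv e' h3 h4 π
    · intro h
      have := contains_inv e'.symm g3 g4 π⁻¹ h
      rwa [inv_inv] at this

lemma N_rev {k : ℕ} (n : ℕ) {σ τ σ' τ' : Fin k → ℕ} (h1 : ∀ a, σ' a = σ (Fin.rev a))
    (h2 : ∀ a, τ' a = τ (Fin.rev a)) : N n σ τ = N n σ' τ' := by
  have key : ∀ {ρ ρ' : Fin k → ℕ} (_ : ∀ a, ρ' a = ρ (Fin.rev a)) (π : Equiv.Perm (Fin n)),
      Contains ρ π ↔ Contains ρ' (Fin.revPerm.trans π) := by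
    intro ρ ρ' hρ π
    constructor
    · exact contains_rev hρ π
    · intro h
      have h' := contains_rev (σ := ρ') (σ' := ρ) (by intro a; rw [hρ, Fin.rev_rev]) _ h
      have : Fin.revPerm.trans (Fin.revPerm.trans π) = π := by
        ext i; simp
      rwa [this] at h'
  unfold N
  apply Nat.card_congr
  refine Equiv.subtypeEquiv ⟨fun π => Fin.revPerm.trans π, fun π => Fin.revPerm.trans π, ?_, ?_⟩ ?_
  · intro π; ext i; simp
  · intro π; ext i; simp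
  · intro π
    exact and_congr (not_congr (key h1 π)) (not_congr (key h2 π))

lemma N_comp {k : ℕ} (n : ℕ) {σ τ σ' τ' : Fin k → ℕ} (h1 : ∀ a b, σ' a < σ' b ↔ σ b < σ a)
    (h2 : ∀ a b, τ' a < τ' b ↔ τ b < τ a) : N n σ τ = N n σ' τ' := by
  have key : ∀ {ρ ρ' : Fin k → ℕ} (_ : ∀ a b, ρ' a < ρ' b ↔ ρ b < ρ a) (π : Equiv.Perm (Fin n)),
      Contains ρ π ↔ Contains ρ' (π.trans Fin.revPerm) := by
    intro ρ ρ' hρ π
    constructor
    · exact contains_comp hρ π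
    · intro h
      have h' := contains_comp (σ := ρ') (σ' := ρ) (by intro a b; rw [hρ]) _ h
      have : (π.trans Fin.revPerm).trans Fin.revPerm = π := by
        ext i; simp
      rwa [this] at h'
  unfold N
  apply Nat.card_congr
  refine Equiv.subtypeEquiv ⟨fun π => π.trans Fin.revPerm, fun π => π.trans Fin.revPerm, ?_, ?_⟩ ?_
  · intro π; ext i; simp
  · intro π; ext i; simp
  · intro π
    exact and_congr (not_congr (key h1 π)) (not_congr (key h2 π))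

/-! ### from patterns to lists -/

lemma inj_ne {n : ℕ} {f : Fin 5 → Fin n} (hf : StrictMono f) (π : Equiv.Perm (Fin n))
    {a b : Fin 5} (hab : a ≠ b) : (π (f a) : ℕ) ≠ π (f b) := by
  intro h
  exact hab (hf.injective (π.injective (Fin.ext h)))

lemma patA2 {n : ℕ} (π : Equiv.Perm (Fin n)) :
    (¬ Contains ![1, 2, 3, 4, 5] π ∧ ¬ Contains ![2, 1, 3, 4, 5] π) ↔ AvA Occ12 2 (lst π) := by
  rw [AvA2_iff, ex5 (fun a b c d e => a < c ∧ b < c ∧ c < d ∧ d < e) π, ← not_or]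
  apply not_congr
  constructor
  · rintro (⟨f, hf, hc⟩ | ⟨f, hf, hc⟩)
    · exact ⟨f, hf, (hc 0 2).mp (by decide), (hc 1 2).mp (by decide), (hc 2 3).mp (by decide),
        (hc 3 4).mp (by decide)⟩
    · exact ⟨f, hf, (hc 0 2).mp (by decide), (hc 1 2).mp (by decide), (hc 2 3).mp (by decide),
        (hc 3 4).mp (by decide)⟩
  · rintro ⟨f, hf, h1, h2, h3, h4⟩
    have h0 := inj_ne hf π (show (0 : Fin 5) ≠ 1 by decide)
    rcases lt_or_gt_of_ne h0 with h | h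
    · left
      refine ⟨f, hf, ?_⟩
      intro i j
      rw [Fin.lt_def]
      fin_cases i <;> fin_cases j <;> simp <;> omega
    · right
      refine ⟨f, hf, ?_⟩
      intro i j
      rw [Fin.lt_def]
      fin_cases i <;> fin_cases j <;> simp <;> omega

lemma patB2 {n : ℕ} (π : Equiv.Perm (Fin n)) :
    (¬ Contains ![2, 3, 1, 4, 5] π ∧ ¬ Contains ![3, 2, 1, 4, 5] π) ↔ AvB Occ12 2 (lst π) := by
  rw [AvB2_iff, ex5 (fun a b c d e => c < a ∧ c < b ∧ a < d ∧ b < d ∧ d < e) π, ← not_or]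
  apply not_congr
  constructor
  · rintro (⟨f, hf, hc⟩ | ⟨f, hf, hc⟩)
    · exact ⟨f, hf, (hc 2 0).mp (by decide), (hc 2 1).mp (by decide), (hc 0 3).mp (by decide),
        (hc 1 3).mp (by decide), (hc 3 4).mp (by decide)⟩
    · exact ⟨f, hf, (hc 2 0).mp (by decide), (hc 2 1).mp (by decide), (hc 0 3).mp (by decide),
        (hc 1 3).mp (by decide), (hc 3 4).mp (by decide)⟩
  · rintro ⟨f, hf, h1, h2, h3, h4, h5⟩
    have h0 := inj_ne hf π (show (0 : Fin 5) ≠ 1 by decide)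
    rcases lt_or_gt_of_ne h0 with h | h
    · left
      refine ⟨f, hf, ?_⟩
      intro i j
      rw [Fin.lt_def]
      fin_cases i <;> fin_cases j <;> simp <;> omega
    · right
      refine ⟨f, hf, ?_⟩
      intro i j
      rw [Fin.lt_def]
      fin_cases i <;> fin_cases j <;> simp <;> omega

lemma patA1 {n : ℕ} (π : Equiv.Perm (Fin n)) :
    (¬ Contains ![1, 2, 5, 3, 4] π ∧ ¬ Contains ![1, 2, 5, 4, 3] π) ↔ AvA Occ3 1 (lst π) := by
  rw [AvA1_iff, ex5 (fun a c p q r => a < c ∧ c < q ∧ c < r ∧ q < p ∧ r < p) π, ← not_or]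
  apply not_congr
  constructor
  · rintro (⟨f, hf, hc⟩ | ⟨f, hf, hc⟩)
    · exact ⟨f, hf, (hc 0 1).mp (by decide), (hc 1 3).mp (by decide), (hc 1 4).mp (by decide),
        (hc 3 2).mp (by decide), (hc 4 2).mp (by decide)⟩
    · exact ⟨f, hf, (hc 0 1).mp (by decide), (hc 1 3).mp (by decide), (hc 1 4).mp (by decide),
        (hc 3 2).mp (by decide), (hc 4 2).mp (by decide)⟩
  · rintro ⟨f, hf, h1, h2, h3, h4, h5⟩
    have h0 := inj_ne hf π (show (3 : Fin 5) ≠ 4 by decide)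
    rcases lt_or_gt_of_ne h0 with h | h
    · left
      refine ⟨f, hf, ?_⟩
      intro i j
      rw [Fin.lt_def]
      fin_cases i <;> fin_cases j <;> simp <;> omega
    · right
      refine ⟨f, hf, ?_⟩
      intro i j
      rw [Fin.lt_def]
      fin_cases i <;> fin_cases j <;> simp <;> omega

lemma patB1 {n : ℕ} (π : Equiv.Perm (Fin n)) :
    (¬ Contains ![2, 1, 5, 3, 4] π ∧ ¬ Contains ![2, 1, 5, 4, 3] π) ↔ AvB Occ3 1 (lst π) := by
  rw [AvB1_iff, ex5 (fun a c p q r => c < a ∧ a < q ∧ a < r ∧ q < p ∧ r < p) π, ← not_or]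
  apply not_congr
  constructor
  · rintro (⟨f, hf, hc⟩ | ⟨f, hf, hc⟩)
    · exact ⟨f, hf, (hc 1 0).mp (by decide), (hc 0 3).mp (by decide), (hc 0 4).mp (by decide),
        (hc 3 2).mp (by decide), (hc 4 2).mp (by decide)⟩
    · exact ⟨f, hf, (hc 1 0).mp (by decide), (hc 0 3).mp (by decide), (hc 0 4).mp (by decide),
        (hc 3 2).mp (by decide), (hc 4 2).mp (by decide)⟩
  · rintro ⟨f, hf, h1, h2, h3, h4, h5⟩
    have h0 := inj_ne hf π (show (3 : Fin 5) ≠ 4 by decide)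
    rcases lt_or_gt_of_ne h0 with h | h
    · left
      refine ⟨f, hf, ?_⟩
      intro i j
      rw [Fin.lt_def]
      fin_cases i <;> fin_cases j <;> simp <;> omega
    · right
      refine ⟨f, hf, ?_⟩
      intro i j
      rw [Fin.lt_def]
      fin_cases i <;> fin_cases j <;> simp <;> omega

lemma NA2 (n : ℕ) : N n ![1, 2, 3, 4, 5] ![2, 1, 3, 4, 5] = (SS (chA Occ12 n 2) n).card := by
  unfold N
  rw [← card_eq (AvA Occ12 2) _ (fun L => SSA_full n 2 L)]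
  apply Nat.card_congr
  exact Equiv.subtypeEquivRight patA2

lemma NB2 (n : ℕ) : N n ![2, 3, 1, 4, 5] ![3, 2, 1, 4, 5] = (SS (chB Occ12 n 2) n).card := by
  unfold N
  rw [← card_eq (AvB Occ12 2) _ (fun L => SSB_full n 2 L)]
  apply Nat.card_congr
  exact Equiv.subtypeEquivRight patB2

lemma NA1 (n : ℕ) : N n ![1, 2, 5, 3, 4] ![1, 2, 5, 4, 3] = (SS (chA Occ3 n 1) n).card := by
  unfold N
  rw [← card_eq (AvA Occ3 1) _ (fun L => SSA_full n 1 L)]
  apply Nat.card_congr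
  exact Equiv.subtypeEquivRight patA1

lemma NB1 (n : ℕ) : N n ![2, 1, 5, 3, 4] ![2, 1, 5, 4, 3] = (SS (chB Occ3 n 1) n).card := by
  unfold N
  rw [← card_eq (AvB Occ3 1) _ (fun L => SSB_full n 1 L)]
  apply Nat.card_congr
  exact Equiv.subtypeEquivRight patB1

lemma step1 (n : ℕ) : N n ![1, 2, 3, 4, 5] ![2, 1, 3, 4, 5]
    = N n ![2, 3, 1, 4, 5] ![3, 2, 1, 4, 5] := by
  rw [NA2, NB2, main_card mono12]

lemma step2 (n : ℕ) : N n ![1, 2, 5, 3, 4] ![1, 2, 5, 4, 3]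
    = N n ![2, 1, 5, 3, 4] ![2, 1, 5, 4, 3] := by
  rw [NA1, NB1, main_card mono3]

lemma rc1 (n : ℕ) : N n ![1, 2, 3, 4, 5] ![1, 2, 3, 5, 4]
    = N n ![1, 2, 3, 4, 5] ![2, 1, 3, 4, 5] := by
  rw [N_rev n (σ := ![1, 2, 3, 4, 5]) (τ := ![1, 2, 3, 5, 4]) (σ' := ![5, 4, 3, 2, 1])
    (τ' := ![4, 5, 3, 2, 1]) (by decide) (by decide)]
  exact N_comp n (by decide) (by decide)

lemma rc2 (n : ℕ) : N n ![2, 3, 1, 4, 5] ![3, 2, 1, 4, 5]
    = N n ![1, 2, 5, 3, 4] ![1, 2, 5, 4, 3] := by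
  rw [N_rev n (σ := ![2, 3, 1, 4, 5]) (τ := ![3, 2, 1, 4, 5]) (σ' := ![5, 4, 1, 3, 2])
    (τ' := ![5, 4, 1, 2, 3]) (by decide) (by decide)]
  exact N_comp n (by decide) (by decide)

lemma rev3 (n : ℕ) : N n ![2, 1, 5, 3, 4] ![2, 1, 5, 4, 3]
    = N n ![4, 3, 5, 1, 2] ![3, 4, 5, 1, 2] :=
  N_rev n (by decide) (by decide)

/-- `![4,3,5,1,2]` sorted: positions of the values in increasing order -/
def e1 : Equiv.Perm (Fin 5) := ⟨![3, 4, 1, 0, 2], ![3, 2, 4, 0, 1], by decide, by decide⟩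

def e2 : Equiv.Perm (Fin 5) := ⟨![3, 4, 0, 1, 2], ![2, 3, 4, 0, 1], by decide, by decide⟩

lemma inv4 (n : ℕ) : N n ![4, 3, 5, 1, 2] ![3, 4, 5, 1, 2]
    = N n ![4, 5, 2, 1, 3] ![4, 5, 1, 2, 3] :=
  N_inv n e1 e2 (by decide) (by decide) (by decide) (by decide) (by decide) (by decide)
    (by decide) (by decide)

/-- **Main result.** For every `n`, the number of permutations of length `n` avoiding both
`45123` and `45213` equals the number avoiding both `12345` and `12354`. -/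
theorem result (n : ℕ) :
    Nat.card {π : Equiv.Perm (Fin n) //
        ¬ Contains ![4, 5, 1, 2, 3] π ∧ ¬ Contains ![4, 5, 2, 1, 3] π} =
      Nat.card {π : Equiv.Perm (Fin n) //
        ¬ Contains ![1, 2, 3, 4, 5] π ∧ ¬ Contains ![1, 2, 3, 5, 4] π} := by
  have h : N n ![1, 2, 3, 4, 5] ![1, 2, 3, 5, 4] = N n ![4, 5, 2, 1, 3] ![4, 5, 1, 2, 3] := by
    rw [rc1, step1, rc2, step2, rev3, inv4]
  have h2 : N n ![4, 5, 2, 1, 3] ![4, 5, 1, 2, 3] = N n ![4, 5, 1, 2, 3] ![4, 5, 2, 1, 3] := by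
    unfold N
    apply Nat.card_congr
    exact Equiv.subtypeEquivRight (fun π => and_comm)
  exact (h.trans h2).symm

end Pool.Agent.Results.MP_b2be16_co.WilfEquivalence45123
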